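import Pool.Agent.ABC3.Defs

set_option autoImplicit false

namespace Pool.Agent.ABCP

open Matrix
open Pool.Agent.ABC3 (St sdeg xc mu mu_def xc_comm xc_sq mu_comm mu_deg HasDeg HomV kr)

section mup
variable {K : Type} [Field K] {ι : Type} [Fintype ι] [DecidableEq ι]

theorem mu_pow_p (p : ℕ) [hp : Fact p.Prime] [CharP K p] (w : ι → K) : mu w ^ p = 0 := by
  have hch : CharP (Matrix (St ι) (St ι) K) p := by infer_instance
  have key : ∀ S : Finset ι, (∑ c ∈ S, w c • xc K c) ^ p = 0 := by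
    intro S
    induction S using Finset.induction_on with
    | empty =>
      rw [Finset.sum_empty, zero_pow hp.out.ne_zero]
    | insert a S ha ih =>
      rw [Finset.sum_insert ha]
      have hc : Commute (w a • xc K a) (∑ c ∈ S, w c • xc K c) := by
        apply Commute.sum_right
        intro i _
        show (w a • xc K a) * (w i • xc K i) = (w i • xc K i) * (w a • xc K a)
        rw [smul_mul_smul_comm, smul_mul_smul_comm, xc_comm, mul_comm (w a)]
      rw [add_pow_char_of_commute p hc, ih, add_zero]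
      obtain ⟨k, hk⟩ : ∃ k, p = k + 2 := ⟨p - 2, by have := hp.out.two_le; omega⟩
      rw [hk, pow_add, pow_two, smul_mul_smul_comm, xc_sq]
      simp
  have h := key Finset.univ
  rwa [← mu_def] at h

end mup

/-- A graded module over `Sym(Q)/(q^p)` with a homogeneous basis `B`. -/
structure Sys (p : ℕ) (K Q B : Type) [Field K] [AddCommGroup Q] [Module K Q] [Fintype B]
    [DecidableEq B] where
  deg : B → ℤ
  act : Q →ₗ[K] Matrix B B K
  comm : ∀ x y, act x * act y = act y * act x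
  pw : ∀ q, act q ^ p = 0
  hdeg : ∀ q s s', act q s s' ≠ 0 → deg s = deg s' + 1

section defs
variable {p : ℕ} {K Q B : Type} [Field K] [AddCommGroup Q] [Module K Q] [Fintype B] [DecidableEq B]

/-- `M` commutes with the action of `P`. -/
def Com (S : Sys p K Q B) (P : Submodule K Q) (M : Matrix B B K) : Prop :=
  ∀ x ∈ P, S.act x * M = M * S.act x

/-- Endomorphisms of degree 0. -/
def End0 (S : Sys p K Q B) (M : Matrix B B K) : Prop := HasDeg S.deg 0 M ∧ Com S ⊤ M

/-- The relative trace. -/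
def Tr (S : Sys p K Q B) (q : Q) (g : Matrix B B K) : Matrix B B K :=
  ∑ i ∈ Finset.range p, S.act q ^ i * g * S.act q ^ (p - 1 - i)

/-- `f` is a sum of relative traces from the hyperplanes `ker (ev c)`. -/
def IsTr (S : Sys p K Q B) {ι : Type} [Fintype ι] (ev : ι → (Q →ₗ[K] K)) (f : Matrix B B K) : Prop :=
  ∃ g : ι → Matrix B B K,
    (∀ c, HasDeg S.deg (-((p : ℤ) - 1)) (g c) ∧ Com S (LinearMap.ker (ev c)) (g c)) ∧
    ∀ q : ι → Q, (∀ c, ev c (q c) = 1) → f = ∑ c, Tr S (q c) (g c)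

/-- `e` is the projection onto the cap. -/
def IsCap (S : Sys p K Q B) {ι : Type} [Fintype ι] (ev : ι → (Q →ₗ[K] K)) (e : Matrix B B K) : Prop :=
  e * e = e ∧ End0 S e ∧ IsTr S ev (1 - e) ∧
  ∀ f, End0 S f → IsTr S ev (1 - f) → ∃ α β : Matrix B B K, End0 S α ∧ End0 S β ∧ α * f * β = e

/-- The part of degree `d` of the image of `e`. -/
def Cd (S : Sys p K Q B) (e : Matrix B B K) (d : ℤ) : Submodule K (B → K) where
  carrier := {v | HomV S.deg d v ∧ e.mulVec v = v}
  add_mem' := by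
    rintro v w ⟨hv, hv'⟩ ⟨hw, hw'⟩
    refine ⟨fun s hs => ?_, by rw [Matrix.mulVec_add, hv', hw']⟩
    by_cases h : v s = 0
    · exact hw s (fun h' => hs (by simp [h, h']))
    · exact hv s h
  zero_mem' := ⟨fun s hs => absurd rfl hs, Matrix.mulVec_zero _⟩
  smul_mem' := by
    rintro a v ⟨hv, hv'⟩
    refine ⟨fun s hs => hv s (fun h' => hs (by simp [h'])), by rw [Matrix.mulVec_smul, hv']⟩

/-- The subspace `P · (im e)_{d-1}` of `(im e)_d`. -/
def PC (S : Sys p K Q B) (e : Matrix B B K) (P : Submodule K Q) (d : ℤ) : Submodule K (B → K) :=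
  Submodule.span K {v | ∃ x ∈ P, ∃ w ∈ Cd S e (d - 1), v = (S.act x).mulVec w}

/-- All products of `(p - 1) dim P` elements of `P` kill `v`. -/
def AnnP (S : Sys p K Q B) (P : Submodule K Q) (v : B → K) : Prop :=
  ∀ l : List Q, (∀ x ∈ l, x ∈ P) → l.length = (p - 1) * Module.finrank K P →
    ((l.map (fun x => S.act x)).prod).mulVec v = 0

/-- The low degree part of the cap vanishes. -/
def LowA (S : Sys p K Q B) (e : Matrix B B K) (t : ℤ) : Prop :=
  ∀ d : ℤ, 2 * d < t → ∀ v, HomV S.deg d v → e.mulVec v = v → v = 0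

/-- In degree `D` the identity of the cap is a sum of relative traces from `P ∩ ker (ev c)` to `P`. -/
def StarP (S : Sys p K Q B) {ι : Type} [Fintype ι] (ev : ι → (Q →ₗ[K] K)) (e : Matrix B B K)
    (P : Submodule K Q) (D : ℤ) : Prop :=
  ∃ g : ι → Matrix B B K,
    (∀ c, HasDeg S.deg (-((p : ℤ) - 1)) (g c) ∧ Com S (P ⊓ LinearMap.ker (ev c)) (g c) ∧
      e * g c * e = g c ∧ (P ≤ LinearMap.ker (ev c) → g c = 0)) ∧
    ∀ q : ι → Q, (∀ c, ¬ P ≤ LinearMap.ker (ev c) → q c ∈ P ∧ ev c (q c) = 1) →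
      ∀ v, HomV S.deg D v → e.mulVec v = v → v = ∑ c, (Tr S (q c) (g c)).mulVec v

end defs

/-- The threshold `N - (3 p - 4) n + (2 p - 2)`. -/
def thr (p N n : ℕ) : ℤ := (N : ℤ) - (3 * p - 4) * n + (2 * p - 2)

section TSys
variable {K Q : Type} [Field K] [AddCommGroup Q] [Module K Q]
  {ι : Type} [Fintype ι] [DecidableEq ι]

/-- `T(Z)` as a module over `R(Q)`; `ev c : Q → K` is the vector `c` of `Z` in the dual of `Q`. -/
noncomputable def TSys (p : ℕ) [Fact p.Prime] [CharP K p] (ev : ι → (Q →ₗ[K] K)) :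
    Sys p K Q (St ι) where
  deg := sdeg
  act := mu.comp (LinearMap.pi ev)
  comm := by intro x y; exact mu_comm _ _
  pw := by intro q; exact mu_pow_p p _
  hdeg := by intro q s s' h; exact mu_deg _ s s' h

theorem TSys_act (p : ℕ) [Fact p.Prime] [CharP K p] (ev : ι → (Q →ₗ[K] K)) (q : Q) :
    (TSys p ev).act q = mu (fun c => ev c q) := rfl

theorem TSys_deg (p : ℕ) [Fact p.Prime] [CharP K p] (ev : ι → (Q →ₗ[K] K)) :
    (TSys p ev).deg = sdeg := rfl

/-- The main induction statement for `T(Z)`. -/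
def Good (p : ℕ) [Fact p.Prime] [CharP K p] (ev : ι → (Q →ₗ[K] K)) : Prop :=
  ∀ e, IsCap (TSys p ev) ev e →
    LowA (TSys p ev) e (thr p (Fintype.card ι) (Module.finrank K Q))

end TSys

end Pool.Agent.ABCP
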