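import Pool.Agent.ABCP.Defs

set_option autoImplicit false

/-!
# `3p - 4` bases in characteristic `p` contain an AT-basis (squad ABCP, problem MP_4e0dfc_co)

Notation. `K` algebraically closed field of characteristic `p`, `Q` finite dimensional over `K` (`V = Q^*`), `Z` = family
of vectors `ev c : Q → K` (`c ∈ ι`) of `V`, `T = T(Z) = K[t_c]/(t_c^2)` with basis `St ι` (subsets), `q ∈ Q` acts on `T`
by multiplication by `Σ_c ev c q • t_c`; all these operators commute and have `p`-th power 0.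
For a submodule `P` of `Q`, an operator `g` commuting with `P ∩ ker (ev c)` and `q ∈ P` with `ev c q = 1`, the relative
trace is `Tr q g = Σ_{i<p} q^i g q^{p-1-i} = ad(q)^{p-1} g`; it commutes with `P`. `I` = all sums of relative traces
from the hyperplanes `ker (ev c)` to `Q` (`IsTr`), a two-sided ideal of the ring `A` of endomorphisms of degree 0 (`End0`).
A cap `e` is an idempotent of `A` with `1 - e ∈ I` of minimal rank (it may be 0).

MAIN (Good): if `n = dim Q ≥ 1`, the image `C` of the cap `e` of `T(Z)` vanishes in degrees `d` with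
`2 d < t(Z) = N - (3p-4) n + (2p-2)`. Induction on `n`.
STR: for `P` proper non-zero, the identity of `C` is in degrees `D` with `2 D < t(Z) + 2p - 2` a sum of relative
traces to `P`. BZE: hence `v ∈ C_D` killed by all products of `(p-1) dim P` elements of `P` is in `P · C_{D-1}`. INJ: hence,
if `C` vanishes in degrees `< a`, `2 a < t(Z)`, then `h : C_{a+p-2}/P C → C_{a+p-1}/P C` is injective (`h ∉ P`, codim `P` = 2).
For `u ∈ C_a`: `q^{p-1} u` is killed by all products of `(p-1)(n-1)` elements of any hyperplane `H ⊃ P` (ANN), so it is in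
`h C + P C` for all `h ∉ P`: PEN (Kronecker pencils over `K` algebraically closed) gives `q^{p-1} u ∈ P C`, and INJ again
`u ∈ P C_{a-1} = 0`. ATT: `vac ∈ T(Z)_0` is not in the cap, so if `Π·vac = 0` then `Π_{ker (ev c)}·vac = 0` for some `c`.

Compare the finished files of squad ABC3 (`p = 3`): most rows are adaptations.
-/

namespace Pool.Agent.ABCP

open Matrix
open Pool.Agent.ABC3 (St sdeg xc mu mu_def xc_comm xc_sq mu_comm mu_deg HasDeg HomV kr)

/-- TRC: elementary properties of relative traces (for any `Sys`).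
(1) if `g` commutes with `P ∩ ker l`, `q ∈ P`, `l q = 1`, then `Tr q g` commutes with `P`: write `x = (l x) q + x'`,
`x' ∈ P ∩ ker l`; `q (Tr q g) - (Tr q g) q = q^p g - g q^p = 0` (telescoping). (2) degrees. (3) `A (Tr q g) C = Tr q (A g C)`
if `A`, `C` commute with `q`. (4) `Tr q g = (L - R)^{p-1} g` with `L`, `R` left and right multiplication by `q` (char `p`:
`(X - Y)^{p-1} = Σ X^i Y^{p-1-i}`; as a polynomial identity `(X-Y)^p = X^p - Y^p = (X-Y) Σ X^i Y^{p-1-i}`, or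
`choose (p-1) i = (-1)^i` mod `p`). (5) independence of `q`: `q' = q + x'`, `x' ∈ P ∩ ker l`, `x'` commutes with `g` and `q`;
`ad(q') = ad(q) + ad(x')`, these commute and `ad(x') g = 0`. (6) additivity. -/
def TRCStmt : Prop := ∀ (p : ℕ) [Fact p.Prime] (K Q B : Type) [Field K] [CharP K p] [AddCommGroup Q] [Module K Q]
    [Fintype B] [DecidableEq B] (S : Sys p K Q B),
  (∀ (P : Submodule K Q) (l : Q →ₗ[K] K) q g, Com S (P ⊓ LinearMap.ker l) g → q ∈ P → l q = 1 →
    Com S P (Tr S q g)) ∧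
  (∀ (k : ℤ) q g, HasDeg S.deg k g → HasDeg S.deg (k + ((p : ℤ) - 1)) (Tr S q g)) ∧
  (∀ q (A g C : Matrix B B K), S.act q * A = A * S.act q → S.act q * C = C * S.act q →
    A * Tr S q g * C = Tr S q (A * g * C)) ∧
  (∀ q g, Tr S q g = ((LinearMap.mulLeft K (S.act q) - LinearMap.mulRight K (S.act q)) ^ (p - 1)) g) ∧
  (∀ (P : Submodule K Q) (l : Q →ₗ[K] K) q q' g, Com S (P ⊓ LinearMap.ker l) g → q ∈ P → q' ∈ P →
    l q = 1 → l q' = 1 → Tr S q g = Tr S q' g) ∧
  (∀ q g g', Tr S q (g + g') = Tr S q g + Tr S q g')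

/-- IDL (uses TRC): the sums of relative traces form a two-sided ideal of the ring of endomorphisms of degree 0.
(5): take `g` at the index `c`, `0` elsewhere; independence of `q` by TRC with `P = ⊤`. -/
def IDLStmt : Prop := ∀ (p : ℕ) [Fact p.Prime] (K Q B : Type) [Field K] [CharP K p] [AddCommGroup Q] [Module K Q]
    [Fintype B] [DecidableEq B] (S : Sys p K Q B) (ι : Type) [Fintype ι] (ev : ι → (Q →ₗ[K] K)),
  IsTr S ev 0 ∧
  (∀ f f', IsTr S ev f → IsTr S ev f' → IsTr S ev (f + f')) ∧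
  (∀ f h, IsTr S ev f → End0 S h → IsTr S ev (h * f) ∧ IsTr S ev (f * h)) ∧
  ((∀ c, ev c ≠ 0) → ∀ f, IsTr S ev f → End0 S f) ∧
  (∀ (c : ι) (q : Q) g, HasDeg S.deg (-((p : ℤ) - 1)) g → Com S (LinearMap.ker (ev c)) g → ev c q = 1 →
    IsTr S ev (Tr S q g))

/-- TRK (uses TRC, KRS = `Pool.Agent.ABC3.H56.krs`): for `σ : ι₁ ⊕ ι₂ ≃ ι`, `f` a sum of relative traces on `T(ι₁)`, the
operator `f ⊗ 1` on `T(ι)` is a sum of relative traces. `act q = act₁ q ⊗ 1 + 1 ⊗ act₂ q`, `1 ⊗ act₂ q` commutes with `g ⊗ 1`,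
so `ad(q)(g ⊗ 1) = (ad₁(q) g) ⊗ 1` and `Tr q (g ⊗ 1) = (Tr₁ q g) ⊗ 1` by TRC (4); the indices of `ι₂` get `g = 0`. -/
def TRKStmt : Prop := ∀ (p : ℕ) [Fact p.Prime] (K Q : Type) [Field K] [CharP K p] [AddCommGroup Q] [Module K Q]
    (ι ι₁ ι₂ : Type) [Fintype ι] [DecidableEq ι] [Fintype ι₁] [DecidableEq ι₁] [Fintype ι₂] [DecidableEq ι₂]
    (σ : ι₁ ⊕ ι₂ ≃ ι) (ev : ι → (Q →ₗ[K] K)) (f : Matrix (St ι₁) (St ι₁) K),
  IsTr (TSys p (fun i => ev (σ (Sum.inl i)))) (fun i => ev (σ (Sum.inl i))) f →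
  IsTr (TSys p ev) ev (kr σ f 1)

/-- CPX (uses IDL): existence of the cap. Among the idempotents `e` of degree 0 commuting with `Q` with `IsTr (1 - e)` (e.g.
`e = 1`) take one of minimal rank. Let `f ∈ End0`, `IsTr (1 - f)`, `v = e f e`; `e - v = e (1 - f) e` is `IsTr`. Fitting: there is
`k` and a polynomial `w` in `v` such that `π = v w` is idempotent and `v^k (e - π) = 0` (minimal polynomial `X^k g(X)`,
`g(0) ≠ 0`, Bezout), `π = e π = π e`. `e - v^k` is `IsTr` (`= (e - v)(e + v + ...)`), so `e - π = (e - v^k)(e - π)` is, so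
`1 - π = (1 - e) + (e - π)` is. By minimality `rank π = rank e`, `im π ⊆ im e`, so `π = e`. Then `e = v w = e f (e w)`. -/
def CPXStmt : Prop := ∀ (p : ℕ) [Fact p.Prime] (K Q B : Type) [Field K] [CharP K p] [AddCommGroup Q] [Module K Q]
    [Fintype B] [DecidableEq B] (S : Sys p K Q B) (ι : Type) [Fintype ι] (ev : ι → (Q →ₗ[K] K)),
  (∀ c, ev c ≠ 0) → ∃ e, IsCap S ev e

/-- SQR: if the product of the `(p-1)`-st powers of a basis of `P` kills `v` then every product of `(p-1) dim P` elements of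
`P` kills `v`: expand each factor in the basis; a product of `(p-1) n` basis elements has some exponent `≥ p` (then it is 0 by
`pw` and `comm`) or all exponents equal to `p-1`. -/
def SQRStmt : Prop := ∀ (p : ℕ) [Fact p.Prime] (K Q B : Type) [Field K] [AddCommGroup Q] [Module K Q]
    [Fintype B] [DecidableEq B] (S : Sys p K Q B) (P : Submodule K Q) (n : ℕ) (b : Module.Basis (Fin n) K P) (v : B → K),
  ((List.ofFn (fun i => S.act (b i : Q) ^ (p - 1))).prod).mulVec v = 0 → AnnP S P v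

/-- NIL: a product of `(p-1) dim P + 1` elements of `P` is 0 (expand in a basis; some exponent is `≥ p`). -/
def NILStmt : Prop := ∀ (p : ℕ) [Fact p.Prime] (K Q B : Type) [Field K] [AddCommGroup Q] [Module K Q]
    [FiniteDimensional K Q] [Fintype B] [DecidableEq B] (S : Sys p K Q B) (P : Submodule K Q) (l : List Q),
  (∀ x ∈ l, x ∈ P) → l.length = (p - 1) * Module.finrank K P + 1 → (l.map (fun x => S.act x)).prod = 0

/-- EXT (uses SQR): if `h ∉ P` and `h^{p-1} v` is killed by all products of `(p-1) dim P` elements of `P`, then `v` is killed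
by all products of `(p-1) (dim P + 1)` elements of `P + K h` (basis of `P` and `h`). -/
def EXTStmt : Prop := ∀ (p : ℕ) [Fact p.Prime] (K Q B : Type) [Field K] [AddCommGroup Q] [Module K Q]
    [FiniteDimensional K Q] [Fintype B] [DecidableEq B] (S : Sys p K Q B) (P : Submodule K Q) (h : Q) (v : B → K),
  h ∉ P → AnnP S P ((S.act h ^ (p - 1)).mulVec v) → AnnP S (P ⊔ Submodule.span K {h}) v

/-- ANN (uses TRC IDL SQR): the cap has no free summand. Let `v ∈ im e` be homogeneous of degree `d`, `n = dim Q ≥ 1`,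
and suppose it is not killed by all products of `(p-1) n` elements. `ι` is nonempty: take `c₀`, `b_0` with `ev c₀ b_0 = 1`, and a basis
`b_1..b_{n-1}` of `ker (ev c₀)`. By SQR `Π = ∏ b_i^{p-1}` has `Π v ≠ 0`. Choose `s₀` with `(Π v) s₀ ≠ 0` (of degree
`d + (p-1) n`), `g₀ x = x(s₀)/(Πv)(s₀) • v` of degree `-(p-1) n`, and for a list `L` of the `b_i` let `T_L(g₀)` be the iterated `Tr`.
If `L` has length `r`: `T_L(g₀) z = 0` for homogeneous `z` of degree `< d + (p-1)(n-r)`, and `T_L(g₀) z = g₀ (Π_L z)` for `z`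
homogeneous of degree `= d + (p-1)(n-r)` (induction: `Tr b g z = Σ_i b^i g (b^{p-1-i} z)`, only `i = 0` survives). So
`f = Tr(b_0)(Tr(b_1)(...Tr(b_{n-1})(g₀)))` has `f v = g₀ Π v = v`. `Tr(b_1)(...)` has degree `-(p-1)` and commutes with
`ker (ev c₀)` (it commutes with all `b_i`, `i ≥ 1`), so `f` is `IsTr` (IDL (5)) and in `End0`. Then `f' = e - e f e` has
`1 - f' = (1 - e) + e f e` in `IsTr`, so `e = α f' β`; `f' = e f' = f' e`, so `y ↦ f' (e β y)` is injective on `im e`, hence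
bijective on `im e`, so `x ↦ f' x` is surjective, hence injective on `im e`, but `f' v = v - e f v = 0`: so `v = 0`. -/
def ANNStmt : Prop := ∀ (p : ℕ) [Fact p.Prime] (K Q B : Type) [Field K] [CharP K p] [AddCommGroup Q] [Module K Q]
    [FiniteDimensional K Q] [Fintype B] [DecidableEq B] (S : Sys p K Q B) (ι : Type) [Fintype ι] [Nonempty ι]
    (ev : ι → (Q →ₗ[K] K)),
  (∀ c, ev c ≠ 0) → 0 < Module.finrank K Q → ∀ e, IsCap S ev e →
  ∀ (d : ℤ) v, HomV S.deg d v → e.mulVec v = v → AnnP S ⊤ v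

/-- QUO: if all vectors of `Z` vanish on `P`, endomorphisms and sums of relative traces over `Q ⧸ P` are so over `Q`. -/
def QUOStmt : Prop := ∀ (p : ℕ) [Fact p.Prime] (K Q : Type) [Field K] [CharP K p] [AddCommGroup Q] [Module K Q]
    (ι : Type) [Fintype ι] [DecidableEq ι] (ev : ι → (Q →ₗ[K] K)) (P : Submodule K Q)
    (h : ∀ c, P ≤ LinearMap.ker (ev c)) (f : Matrix (St ι) (St ι) K),
  (End0 (TSys p (fun c => P.liftQ (ev c) (h c))) f → End0 (TSys p ev) f) ∧
  (IsTr (TSys p (fun c => P.liftQ (ev c) (h c))) (fun c => P.liftQ (ev c) (h c)) f → IsTr (TSys p ev) ev f)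

/-- `Good` holds for all families of non-zero vectors in dimensions `1 ≤ n' < n`. -/
def GoodBelow (p : ℕ) [Fact p.Prime] (K : Type) [Field K] [CharP K p] (n : ℕ) : Prop :=
  ∀ (Q : Type) [AddCommGroup Q] [Module K Q] [FiniteDimensional K Q]
    (ι : Type) [Fintype ι] [DecidableEq ι] (ev : ι → (Q →ₗ[K] K)),
  (∀ c, ev c ≠ 0) → 0 < Module.finrank K Q → Module.finrank K Q < n → Good p ev

/-- STR (uses CPX TRK QUO TRC IDL KRS). Let `X = {c | P ≤ ker (ev c)}`, `Y` the others, `σ : X ⊕ Y ≃ ι`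
(`Equiv.sumCompl`). Caps `e_X` of `T(X)` over `Q ⧸ P` (non-zero vectors `liftQ (ev c)`) and `e_Y` of `T(Y)` over `P` (non-zero
vectors `(ev c) ∘ P.subtype`) exist. By QUO `e_X` is in `End0` over `Q` and `1 - e_X` is `IsTr` over `Q`, so by TRK `F = kr σ e_X 1`
has `1 - F = kr σ (1 - e_X) 1` in `IsTr`, and `F ∈ End0`; so `e = α F β`. Over `P`:
`1 - e_Y = Σ_{c∈Y} Tr(q_c)(h_c)`, `q_c ∈ P`, so `kr 1 (1 - e_Y) = Σ Tr(q_c)(kr 1 h_c)` in `T(Z)` (for `q ∈ P`:
`act q = kr 1 (act_Y q)`). Put `g_c = e α F (kr 1 h_c) β e` for `c ∈ Y` and `0` for `c ∈ X`; it commutes with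
`P ∩ ker (ev c)`. For `v = e v` of degree `D`: `v = α F β v`, and `F = kr e_X (1-e_Y) + kr e_X e_Y`. The vector
`kr e_X e_Y (β v)` is homogeneous of degree `D` and in the image of `kr e_X e_Y`; the rows of `e_X` in degrees
`d` with `2 d < thr |X| (n - dim P)` vanish (GoodBelow for `Q ⧸ P`), the rows of `e_Y` in degrees `2 d < thr |Y| (dim P)` vanish
(GoodBelow for `P`), and `thr |X| (n - dim P) + thr |Y| (dim P) = thr N n + (2p - 2) > 2 D`: so it is 0. Hence
`v = Σ α F Tr(q_c)(kr 1 h_c) β v = Σ Tr(q_c)(α F (kr 1 h_c) β) v`, and apply `e` on the left, `v = e v` on the right. -/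
def STRStmt : Prop := ∀ (p : ℕ) [Fact p.Prime] (K Q : Type) [Field K] [CharP K p] [AddCommGroup Q] [Module K Q]
    [FiniteDimensional K Q] (ι : Type) [Fintype ι] [DecidableEq ι] (ev : ι → (Q →ₗ[K] K)),
  (∀ c, ev c ≠ 0) → GoodBelow p K (Module.finrank K Q) → ∀ e, IsCap (TSys p ev) ev e →
  ∀ P : Submodule K Q, P ≠ ⊥ → P ≠ ⊤ → ∀ D : ℤ,
    2 * D < thr p (Fintype.card ι) (Module.finrank K Q) + (2 * p - 2) → StarP (TSys p ev) ev e P D

/-- BZE. For every `P ≠ ⊤`: if `v ∈ (im e)_D` is killed by all products of `(p-1) dim P` elements of `P`, then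
`v ∈ P · (im e)_{D-1}`. Induction on `dim P`. `P = ⊥`: the empty product kills `v`: `v = 0`.
Otherwise take `g` from StarP and `q_c ∈ P` with `ev c q_c = 1` for `c` with `P ⊄ ker (ev c)`; `v = Σ_c Tr(q_c)(g_c) v =
Σ_c Σ_i q_c^i g_c q_c^{p-1-i} v`. The terms with `i ≥ 1` are `q_c · (q_c^{i-1} g_c q_c^{p-1-i} v)`, in `P · (im e)_{D-1}`.
`v_c = g_c q_c^{p-1} v ∈ (im e)_D` is killed by all products of `(p-1) dim P_c` elements of `P_c = P ∩ ker (ev c)` (`g_c`
commutes with them; times `q_c^{p-1}` they are products of `(p-1) dim P` elements of `P`, `dim P_c = dim P - 1`), so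
`v_c ∈ P_c · (im e)_{D-1}` by induction. (terms with `P ≤ ker (ev c)` are 0.) -/
def BZEStmt : Prop := ∀ (p : ℕ) [Fact p.Prime] (K Q B : Type) [Field K] [CharP K p] [AddCommGroup Q] [Module K Q]
    [FiniteDimensional K Q] [Fintype B] [DecidableEq B] (S : Sys p K Q B) (ι : Type) [Fintype ι]
    (ev : ι → (Q →ₗ[K] K)) (e : Matrix B B K) (D : ℤ),
  e * e = e → End0 S e → (∀ P : Submodule K Q, P ≠ ⊥ → P ≠ ⊤ → StarP S ev e P D) →
  ∀ P : Submodule K Q, P ≠ ⊤ → ∀ v, HomV S.deg D v → e.mulVec v = v → AnnP S P v → v ∈ PC S e P D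

/-- INJ (uses BZE EXT NIL). `im e` vanishes in degrees `< a`, StarP in degrees `≤ a + p - 1`. If `h ∉ P`,
`H = P + K h ≠ ⊤`, `v ∈ (im e)_j`, `h^m v ∈ P · im e`, `1 ≤ m`, `j - a + m ≤ p - 1` then `v ∈ P · im e`.
Induction on `j - a`; `j < a`: `v = 0`. Otherwise `m ≤ p - 1`, so for a product `ω` of `(p-1) dim P` elements of `P`,
`ω h^{p-1} v = h^{p-1-m} ω (h^m v) = 0` by NIL. By EXT `v` is killed by all products of `(p-1) dim H` elements of `H`, by BZE
(for `H`, `D = j`) `v ∈ H · (im e)_{j-1}`, so `v = h v' + y`, `v' ∈ (im e)_{j-1}`, `y ∈ P · (im e)_{j-1}`. `h^{m+1} v' = h^m v - h^m y`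
is in `P · im e`, so by induction (`j - 1`, `m + 1`) `v' ∈ P · (im e)_{j-2}`, so `v ∈ P · (im e)_{j-1}`. -/
def INJStmt : Prop := ∀ (p : ℕ) [Fact p.Prime] (K Q B : Type) [Field K] [CharP K p] [AddCommGroup Q] [Module K Q]
    [FiniteDimensional K Q] [Fintype B] [DecidableEq B] (S : Sys p K Q B) (ι : Type) [Fintype ι]
    (ev : ι → (Q →ₗ[K] K)) (e : Matrix B B K) (a : ℤ),
  e * e = e → End0 S e →
  (∀ d : ℤ, d < a → ∀ v, HomV S.deg d v → e.mulVec v = v → v = 0) →
  (∀ D : ℤ, D ≤ a + (p - 1) → ∀ P : Submodule K Q, P ≠ ⊥ → P ≠ ⊤ → StarP S ev e P D) →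
  ∀ (P : Submodule K Q) (h : Q), h ∉ P → P ⊔ Submodule.span K {h} ≠ ⊤ →
  ∀ (m : ℕ) (j : ℤ) v, 1 ≤ m → j - a + m ≤ p - 1 → v ∈ Cd S e j →
    (S.act h ^ m).mulVec v ∈ PC S e P (j + m) → v ∈ PC S e P j

/-- PEN (linear algebra, uses nothing). Let `(x + λ y) w_λ = z ≠ 0` for all `λ`, `y w_∞ = z`, `W` = span of the `w_λ` (`λ ∈ K`), `W ≠ 0`.
`x W ⊆ y W + K z`. If `z ∉ y W`: there are linear `θ : W → W`, `φ : W → K` with `x w = y θ w + φ(w) z` (`y` injective), and
`θ w_λ = - λ w_λ` for all `λ ∈ K`, `w_λ ≠ 0`: infinitely many eigenvalues, impossible (`K` is infinite, `W` finite dimensional).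
If `z ∈ y W`: `x W ⊆ y W`, so `θ = y^{-1} x : W → W` has an eigenvector `w`: `(x - ρ y) w = 0`, `w ≠ 0`, contradiction. -/
def PENStmt : Prop := ∀ (K A B : Type) [Field K] [IsAlgClosed K] [AddCommGroup A] [Module K A]
    [FiniteDimensional K A] [AddCommGroup B] [Module K B] (x y : A →ₗ[K] B) (z : B),
  (∀ a b : K, ¬ (a = 0 ∧ b = 0) → Function.Injective (a • x + b • y)) →
  (∀ a b : K, ¬ (a = 0 ∧ b = 0) → z ∈ LinearMap.range (a • x + b • y)) → z = 0

/-- STA (uses BZE INJ PEN). `dim Q = n ≥ 2`, `im e` vanishes in degrees `< a`, StarP in degrees `≤ a + p - 1`, every `u ∈ (im e)_a`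
is killed by all products of `(p-1) n` elements. Then `(im e)_a = 0`. Take `P` of dimension `n - 2` and `x, y` with
`Q = P ⊕ K x ⊕ K y`. For a hyperplane `H` and `q ∈ Q` the vector `q^{p-1} u` is killed by all products of `(p-1)(n-1)` elements
of `H`, so by BZE (`D = a + p - 1`) `x^{p-1} u ∈ H · im e = h (im e) + P (im e)` for `H = P + K h`, `h = α x + β y ≠ 0`. INJ with
`m = 1`, `j = a + p - 2`: `h : (im e)_{a+p-2}/P (im e) → (im e)_{a+p-1}/P (im e)` is injective. By PEN `x^{p-1} u ∈ P (im e)`.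
INJ with `h = x`, `m = p - 1`, `j = a`: `u ∈ P · (im e)_{a-1} = 0`. -/
def STAStmt : Prop := ∀ (p : ℕ) [Fact p.Prime] (K Q B : Type) [Field K] [CharP K p] [IsAlgClosed K]
    [AddCommGroup Q] [Module K Q] [FiniteDimensional K Q] [Fintype B] [DecidableEq B] (S : Sys p K Q B)
    (ι : Type) [Fintype ι] (ev : ι → (Q →ₗ[K] K)) (e : Matrix B B K) (a : ℤ),
  e * e = e → End0 S e → 2 ≤ Module.finrank K Q →
  (∀ d : ℤ, d < a → ∀ v, HomV S.deg d v → e.mulVec v = v → v = 0) →
  (∀ D : ℤ, D ≤ a + (p - 1) → ∀ P : Submodule K Q, P ≠ ⊥ → P ≠ ⊤ → StarP S ev e P D) →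
  (∀ v, HomV S.deg a v → e.mulVec v = v → AnnP S ⊤ v) →
  ∀ v, HomV S.deg a v → e.mulVec v = v → v = 0

/-- RK1: one linear form `q = Σ w_c t_c` with all `w_c ≠ 0` on `T(ι)`, `N = card ι`. If `v` has degree `d`, `q^k v = 0`, `0 ≤ k ≤ p`,
`N - 2d > k - 1`, then `v = q^{p-k} x`. `k = 0`, `k = p` trivial. Induction on `N` (all `k`, `d`). `N = 0`: `T = K` in degree 0:
`v = 0` or `d = 0`, `k = 0`, `v = 0`. Step, `1 ≤ k ≤ p-1`: `T(N) = T(N-1) ⊗ K[t]/(t²)`, `q = q' + w t`, `v = v_0 + t v_1`: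
`q^k v = q'^k v_0 + t (q'^k v_1 + k w q'^{k-1} v_0) = 0`. So `q'^{k+1} v_1 = - k w q'^k v_0 = 0` and `R_{k+1}(N-1)` at degree `d-1` gives
`v_1 = q'^{p-k-1} y`, `y` of degree `d-p+k`. Subtract `q^{p-k} (x_0 ⊗ 1)`, `x_0 = y / ((p-k) w)`: we may assume `v_1 = 0`. Then
`q'^{k-1} v_0 = 0` (`k w ≠ 0`), `R_{k-1}(N-1)` at degree `d`: `v_0 = q'^{p-k+1} s`, and `v_0 ⊗ 1 = q^{p-k} (q' s - (p-k) w t s)`. -/
def RK1Stmt : Prop := ∀ (p : ℕ) [Fact p.Prime] (K : Type) [Field K] [CharP K p] (ι : Type) [Fintype ι] [DecidableEq ι]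
    (w : ι → K), (∀ c, w c ≠ 0) → ∀ (k : ℕ), k ≤ p → ∀ (d : ℤ) (v : St ι → K), HomV sdeg d v →
    (mu w ^ k).mulVec v = 0 → (k : ℤ) - 1 < (Fintype.card ι : ℤ) - 2 * d →
    ∃ x : St ι → K, HomV sdeg (d - p + k) x ∧ v = (mu w ^ (p - k)).mulVec x

/-- LO1 (uses RK1 ANN): the case `dim Q = 1`. `thr N 1 = N - p + 2`. If `ι` is empty, `2 d < 2 - p ≤ 0`, trivial. Otherwise strong
induction on `d` (negative degrees trivial): `v ∈ (im e)_d`, `2 d < N - p + 2`; `q ≠ 0` in `Q`, `w_c = ev c q ≠ 0`; ANN: `q^{p-1} v = 0`;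
RK1 with `k = p - 1`: `v = q x`, `x` of degree `d - 1`; `v = e v = q (e x)`, `e x ∈ (im e)_{d-1} = 0`. -/
def LO1Stmt : Prop := ∀ (p : ℕ) [Fact p.Prime] (K Q : Type) [Field K] [CharP K p] [AddCommGroup Q] [Module K Q]
    [FiniteDimensional K Q] (ι : Type) [Fintype ι] [DecidableEq ι] (ev : ι → (Q →ₗ[K] K)),
  (∀ c, ev c ≠ 0) → Module.finrank K Q = 1 → Good p ev

/-- IND (uses STR STA LO1 ANN): strong induction on `n = dim Q`. `n = 1`: LO1. `n ≥ 2`: if `ι` is empty, `thr 0 n ≤ 2 - p ≤ 0`, and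
`T` has only degree 0. Otherwise strong induction on `d` (negative degrees trivial): suppose `im e` vanishes in degrees `< d`, `2 d < thr`. STR gives
StarP in degrees `≤ d + p - 1`, ANN and STA give `(im e)_d = 0`. -/
def INDStmt : Prop := ∀ (p : ℕ) [Fact p.Prime] (K : Type) [Field K] [CharP K p] [IsAlgClosed K] (n : ℕ), GoodBelow p K n

/-- ATT (uses IND TRC IDL CPX KRS): the main theorem in the language of `T(Z)`. Induction on `n = dim Q` (for all
`Q`, `ι`). `n = 0`: `l = []`. `n ≥ 1`: let `e` be a cap. `e` maps `T_0 = K·vac` to itself, `e vac = λ vac`, `λ² = λ`. If `λ = 1`,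
LowA with `d = 0` (`0 < thr N n` by the hypothesis with `P = ⊤`) gives `vac = 0`, contradiction. So `e vac = 0` and
`vac = (1 - e) vac = Σ_c Tr(q_c)(g_c) vac = Σ_c g_c q_c^{p-1} vac` (the other terms have negative degree), so for some `c`
`g_c q_c^{p-1} vac = μ vac`, `μ ≠ 0`. `P = ker (ev c)`, `dim P = n - 1`. By induction for the family `Y = {c' | ¬ P ≤ ker (ev c')}` on `P`
(the hypothesis holds for subspaces of `P`) there is `l` in `P` of length `(p-1)(n-1)` with product not killing `vac_Y`; in `T(Z)` the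
product of `l` is `kr σ 1 (product in T(Y))`, so it does not kill `vac` (KRS, `σ : X ⊕ Y ≃ ι`). Now
`g_c (∏ l) q_c^{p-1} vac = (∏ l) g_c q_c^{p-1} vac = μ (∏ l) vac ≠ 0`, so take `l ++ replicate (p-1) q_c`. -/
def ATTStmt : Prop := ∀ (p : ℕ) [Fact p.Prime] (K Q : Type) [Field K] [CharP K p] [IsAlgClosed K] [AddCommGroup Q]
    [Module K Q] [FiniteDimensional K Q] (ι : Type) [Fintype ι] [DecidableEq ι] (ev : ι → (Q →ₗ[K] K)),
  (∀ c, ev c ≠ 0) →
  (∀ P : Submodule K Q, P ≠ ⊥ →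
    (3 * p - 4) * Module.finrank K P ≤ Nat.card {c // ¬ P ≤ LinearMap.ker (ev c)} + (2 * p - 3)) →
  ∃ l : List Q, l.length = (p - 1) * Module.finrank K Q ∧
    ((l.map (fun x => (TSys p ev).act x)).prod).mulVec (Pi.single (fun _ => false) 1) ≠ 0

/-- PER: the product of the `m`-th powers of the rows is a sum of permanents. In general for `w : Fin M → ι → K` the
`s`-coordinate of `mu (w 0) ... mu (w (M-1)) vac` is the sum over the injective `f : Fin M → ι` with image `{c | s c = true}` of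
`∏ w_j (f j)` (induction on `M`), so if it is nonzero then `card = M` and for a bijection `g : Fin M ≃ {c // s c = true}` it is the
permanent of `(i, j) ↦ w i (g j)`. Apply with `M = m n` and each row `m` times. -/
def PERStmt : Prop := ∀ (K : Type) [Field K] (m n : ℕ) (ι : Type) [Fintype ι] [DecidableEq ι]
    (Y : Matrix (Fin n) ι K),
  ((List.ofFn (fun i => mu (Y i) ^ m)).prod).mulVec (Pi.single (fun _ => false) 1) ≠ 0 →
  ∃ f : Fin m × Fin n → ι, Function.Injective f ∧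
    Matrix.permanent (Matrix.of (fun (r c : Fin m × Fin n) => Y r.2 (f c))) ≠ 0

/-- GEN (uses ATT SQR PER): any family of columns such that every proper subspace `U` misses at least `(3p-4) codim U - (2p-3)` of
them contains an AT-basis. Drop the zero columns (`ι' = {c // column c ≠ 0}`; they lie in every `U`), `Q = Fin n → K`,
`ev c q = Σ_r q r * Y r c`; for `P ≤ Q`, `P ≠ ⊥`, let `U = {x | ∀ y ∈ P, Σ y r x r = 0}`, `dim U = n - dim P`, `U ≠ ⊤`, and
column `c ∉ U` iff `¬ P ≤ ker (ev c)`. ATT, then SQR for the standard basis (of `⊤`), `act (e_i) = mu (Y i)`, PER. -/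
def GENStmt : Prop := ∀ (p : ℕ) [Fact p.Prime] (K : Type) [Field K] [CharP K p] [IsAlgClosed K] (n : ℕ)
    (ι : Type) [Fintype ι] [DecidableEq ι] (Y : Matrix (Fin n) ι K),
  (∀ U : Submodule K (Fin n → K), U ≠ ⊤ →
    (3 * p - 4) * n ≤ Nat.card {c // (fun r => Y r c) ∉ U} + (3 * p - 4) * Module.finrank K U + (2 * p - 3)) →
  ∃ f : Fin (p - 1) × Fin n → ι, Function.Injective f ∧
    Matrix.permanent (Matrix.of (fun (r c : Fin (p - 1) × Fin n) => Y r.2 (f c))) ≠ 0

/-- DSC (uses GEN): the same over any field of characteristic `p`. Map `Y` to `AlgebraicClosure K`; for a proper subspace `U` of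
`(AlgebraicClosure K)^n` the `K`-subspace `U₀` of the `x ∈ K^n` with image in `U` has `finrank K U₀ ≤ finrank U` (vectors linearly
independent over `K` stay linearly independent), `U₀ ≠ ⊤`, and a column of `Y` is in `U₀` iff its image is in `U`. The permanent
of the mapped matrix is the image of the permanent. -/
def DSCStmt : Prop := ∀ (p : ℕ) [Fact p.Prime] (K : Type) [Field K] [CharP K p] (n : ℕ)
    (ι : Type) [Fintype ι] [DecidableEq ι] (Y : Matrix (Fin n) ι K),
  (∀ U : Submodule K (Fin n → K), U ≠ ⊤ →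
    (3 * p - 4) * n ≤ Nat.card {c // (fun r => Y r c) ∉ U} + (3 * p - 4) * Module.finrank K U + (2 * p - 3)) →
  ∃ f : Fin (p - 1) × Fin n → ι, Function.Injective f ∧
    Matrix.permanent (Matrix.of (fun (r c : Fin (p - 1) × Fin n) => Y r.2 (f c))) ≠ 0

/-- FOU (uses DSC): `3p - 4` invertible matrices. `ι = Fin (3p-4) × Fin n`; a proper subspace `U` contains at most `dim U` columns
of each `B j` (linearly independent), so it misses at least `n - dim U` columns of each. -/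
def FOUStmt : Prop := ∀ (p : ℕ) [Fact p.Prime] (K : Type) [Field K] [CharP K p] (n : ℕ)
    (B : Fin (3 * p - 4) → Matrix (Fin n) (Fin n) K),
  (∀ j, (B j).det ≠ 0) →
  ∃ f : Fin (p - 1) × Fin n → Fin (3 * p - 4) × Fin n, Function.Injective f ∧
    Matrix.permanent (Matrix.of (fun (r c : Fin (p - 1) × Fin n) => B (f c).1 r.2 (f c).2)) ≠ 0

/-- ADD (uses nothing): an AT-basis over `ZMod p` is an additive basis for all lists of size 2: if the permanent of
`(r, c) ↦ A r.2 c` is nonzero then for all `x : Fin (p-1) × Fin n → Fin 2 → ZMod p` with `x c 0 ≠ x c 1` and every target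
`y` there is a choice `s` with `Σ_c A r c * x c (s c) = y r` for all `r`. Combinatorial Nullstellensatz or directly:
`F(s) = ∏_r ((Σ_c A r c x_c(s_c) - y_r)^{p-1} - 1)`, `Σ_s ± F(s)` = permanent times `∏ (x_c 0 - x_c 1)` up to sign
(each factor is 0 unless `Σ = y_r`). (See `Pool/Agent/Helper99_ABC3/ADD.lean`.) -/
def ADDStmt : Prop := ∀ (p : ℕ) [Fact p.Prime] (n : ℕ) (A : Matrix (Fin n) (Fin (p - 1) × Fin n) (ZMod p)),
  Matrix.permanent (Matrix.of (fun (r c : Fin (p - 1) × Fin n) => A r.2 c)) ≠ 0 →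
  ∀ (x : Fin (p - 1) × Fin n → Fin 2 → ZMod p), (∀ c, x c 0 ≠ x c 1) → ∀ y : Fin n → ZMod p,
    ∃ s : Fin (p - 1) × Fin n → Fin 2, ∀ r, ∑ c, A r c * x c (s c) = y r

end Pool.Agent.ABCP
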